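import Pool.Agent.V7H62.DH.Spec

/-!
# Tails of multiple zeta values (Hurwitz type): the statements of the parts.
-/

set_option autoImplicit false

open Filter Finset

namespace Pool.Agent.V7H62.DH

/-- `hz N w M` is the sum of `1 / (k₁^n₁ ⋯ k_r^n_r)` over `N + M ≥ k₁ > ⋯ > k_r > N`. -/
noncomputable def hz (N : ℕ) : List ℕ → ℕ → ℝ
  | [], _ => 1
  | n :: w, M => ∑ k ∈ range M, hz N w k / ((N : ℝ) + k + 1) ^ n

/-- The tail `t w N`, the sum of `1 / (k₁^n₁ ⋯ k_r^n_r)` over all `k₁ > ⋯ > k_r > N`; for `N = 0` it is the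
multiple zeta value of `w`. -/
noncomputable def t : List ℕ → ℕ → ℝ
  | [], _ => 1
  | n :: w, N => ∑' k : ℕ, hz N w k / ((N : ℝ) + k + 1) ^ n

/-- admissible (or empty) words -/
def Adm (w : List ℕ) : Prop := (∀ n ∈ w, 1 ≤ n) ∧ ∀ n v, w = n :: v → 2 ≤ n

/-- (TAIL) convergence and the recursion -/
def S_TAIL : Prop := (∀ w, Adm w → ∀ N, Tendsto (hz N w) atTop (nhds (t w N))) ∧
  ∀ w n, Adm (w ++ [n]) → ∀ N, t (w ++ [n]) N = t (w ++ [n]) (N + 1) + t w (N + 1) / ((N : ℝ) + 1) ^ n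

/-- the conclusion of (TRI): tails are truncated values of the reversed words, modulo shorter words -/
def Tri : Prop := ∀ w, Adm w → ∃ (T : Finset (List ℕ)) (c : List ℕ → ℝ),
  (∀ v ∈ T, v.length < w.length ∧ ∀ n ∈ v, 1 ≤ n) ∧
  ∀ N, t w N = (-1) ^ w.length * z w.reverse N + ∑ v ∈ T, c v * z v N

/-- (TRI) -/
def S_TRI : Prop := S_TAIL → Tri

/-- (INDT) The tails of different admissible words are linearly independent over the polynomials. -/
def S_INDT : Prop := S_IND → Tri → ∀ S : Finset (List ℕ), (∀ w ∈ S, Adm w) → ∀ P : List ℕ → Polynomial ℝ,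
  (∀ᶠ N : ℕ in atTop, ∑ w ∈ S, (P w).eval (N : ℝ) * t w N = 0) → ∀ w ∈ S, P w = 0

/-- (LI) For a set of admissible words which contains the prefixes of its words the rational span of
the tails `t w N`, and their linear independence over `ℚ`, do not depend on `N`. -/
def S_LI : Prop := S_TAIL → ∀ S : Set (List ℕ), (∀ w ∈ S, Adm w) → (∀ w n, w ++ [n] ∈ S → w ∈ S) →
  ∀ N, Submodule.span ℚ ((fun w => t w N) '' S) = Submodule.span ℚ ((fun w => t w 0) '' S) ∧
    (LinearIndependent ℚ (fun w : S => t w.1 N) ↔ LinearIndependent ℚ (fun w : S => t w.1 0))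

end Pool.Agent.V7H62.DH
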