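import Pool.Agent.V7H62.DH.Spec2

/-!
# The iterated sums are the sums over decreasing tuples
-/

set_option autoImplicit false

open Filter Finset

namespace Pool.Agent.V7H62.DH

/-- decreasing tuples with entries in `(N, N + M]` -/
noncomputable def FT (N M r : ℕ) : Finset (Fin r → ℕ) := by
  classical exact (Fintype.piFinset fun _ => Finset.Ioc N (N + M)).filter StrictAnti

lemma mem_FT {N M r : ℕ} {k : Fin r → ℕ} :
    k ∈ FT N M r ↔ StrictAnti k ∧ ∀ i, N < k i ∧ k i ≤ N + M := by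
  classical
  rw [FT, mem_filter, Fintype.mem_piFinset]
  simp only [mem_Ioc]
  exact and_comm

lemma strictAnti_cons {r : ℕ} {a : ℕ} {k : Fin r → ℕ} :
    StrictAnti (Fin.cons a k : Fin (r + 1) → ℕ) ↔ (∀ i, k i < a) ∧ StrictAnti k := by
  constructor
  · intro h
    refine ⟨fun i => ?_, fun i j hij => ?_⟩
    · have := h (Fin.succ_pos i)
      simpa using this
    · have := h (Fin.succ_lt_succ_iff.2 hij)
      simpa using this
  · rintro ⟨h1, h2⟩ i j hij
    induction i using Fin.cases with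
    | zero =>
      induction j using Fin.cases with
      | zero => exact absurd hij (lt_irrefl _)
      | succ j => simpa using h1 j
    | succ i =>
      induction j using Fin.cases with
      | zero => exact absurd hij (Fin.not_lt_zero _)
      | succ j => simpa using h2 (Fin.succ_lt_succ_iff.1 hij)

theorem hz_eq (N r : ℕ) (n : Fin r → ℕ) (M : ℕ) :
    hz N (List.ofFn n) M = ∑ k ∈ FT N M r, ∏ i, ((k i : ℝ) ^ (n i))⁻¹ := by
  induction r generalizing M with
  | zero =>
    have h1 : FT N M 0 = {fun i => i.elim0} := by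
      ext k
      rw [mem_FT, mem_singleton]
      constructor
      · intro _
        funext i
        exact i.elim0
      · intro _
        exact ⟨fun i => i.elim0, fun i => i.elim0⟩
    rw [h1, sum_singleton]
    simp [hz]
  | succ r ih =>
    rw [List.ofFn_succ, hz]
    have h1 : ∀ j ∈ range M, hz N (List.ofFn fun i => n i.succ) j / ((N : ℝ) + j + 1) ^ (n 0) =
        ∑ k ∈ FT N j r, (((N + j + 1 : ℕ) : ℝ) ^ (n 0))⁻¹ * ∏ i, ((k i : ℝ) ^ (n i.succ))⁻¹ := by
      intro j _
      rw [ih, ← mul_sum, div_eq_inv_mul]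
      push_cast
      rfl
    rw [sum_congr rfl h1, sum_sigma']
    refine sum_bij' (fun x _ => (Fin.cons (N + x.1 + 1) x.2 : Fin (r + 1) → ℕ))
      (fun k _ => ⟨k 0 - N - 1, fun i => k i.succ⟩) ?_ ?_ ?_ ?_ ?_
    · rintro ⟨j, k⟩ hx
      rw [mem_sigma, mem_range, mem_FT] at hx
      obtain ⟨hj, hk1, hk2⟩ := hx
      rw [mem_FT, strictAnti_cons]
      refine ⟨⟨fun i => ?_, hk1⟩, fun i => ?_⟩
      · have := (hk2 i).2
        simp only at this ⊢
        omega
      · induction i using Fin.cases with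
        | zero =>
          simp only [Fin.cons_zero]
          simp only at hj
          omega
        | succ i =>
          have := hk2 i
          simp only [Fin.cons_succ]
          simp only at hj this
          omega
    · intro k hk
      rw [mem_FT] at hk
      obtain ⟨hk1, hk2⟩ := hk
      rw [mem_sigma, mem_range, mem_FT]
      have h0 := hk2 0
      refine ⟨?_, fun i j hij => hk1 (Fin.succ_lt_succ_iff.2 hij), fun i => ?_⟩
      · simp only
        omega
      · have h2 := hk2 i.succ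
        have h3 := hk1 (Fin.succ_pos i)
        simp only
        omega
    · rintro ⟨j, k⟩ _
      simp only [Fin.cons_zero, Fin.cons_succ]
      congr 1
      omega
    · intro k hk
      rw [mem_FT] at hk
      have h0 := hk.2 0
      funext i
      induction i using Fin.cases with
      | zero =>
        simp only [Fin.cons_zero]
        omega
      | succ i => simp only [Fin.cons_succ]
    · rintro ⟨j, k⟩ _
      rw [Fin.prod_univ_succ]
      simp only [Fin.cons_zero, Fin.cons_succ]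

theorem hz_eq_tsum (N r : ℕ) (n : Fin r → ℕ) (M : ℕ) :
    hz N (List.ofFn n) M = ∑' k : {k : Fin r → ℕ // StrictAnti k ∧ ∀ i, N < k i ∧ k i ≤ N + M},
      ∏ i, ((k.1 i : ℝ) ^ (n i))⁻¹ := by
  rw [hz_eq, ← Finset.tsum_subtype (FT N M r) fun k : Fin r → ℕ => ∏ i, ((k i : ℝ) ^ (n i))⁻¹]
  exact (Equiv.subtypeEquivRight fun k => mem_FT).tsum_eq
    (fun k : {k : Fin r → ℕ // StrictAnti k ∧ ∀ i, N < k i ∧ k i ≤ N + M} =>
      ∏ i, ((k.1 i : ℝ) ^ (n i))⁻¹)

theorem t_eq_tsum (hT : S_TAIL) (N r : ℕ) (n : Fin r → ℕ) (hn : Adm (List.ofFn n)) :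
    t (List.ofFn n) N = ∑' k : {k : Fin r → ℕ // StrictAnti k ∧ ∀ i, N < k i},
      ∏ i, ((k.1 i : ℝ) ^ (n i))⁻¹ := by
  classical
  have hlim := hT.1 _ hn N
  obtain ⟨G, hG⟩ : ∃ G : ℕ → Finset {k : Fin r → ℕ // StrictAnti k ∧ ∀ i, N < k i},
      G = fun M => (FT N M r).subtype _ := ⟨_, rfl⟩
  have hmemG : ∀ M k, k ∈ G M ↔ ∀ i, k.1 i ≤ N + M := by
    intro M k
    rw [hG]
    simp only [mem_subtype, mem_FT]
    exact ⟨fun h i => (h.2 i).2, fun h => ⟨k.2.1, fun i => ⟨k.2.2 i, h i⟩⟩⟩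
  have hsum : ∀ M, hz N (List.ofFn n) M = ∑ k ∈ G M, ∏ i, ((k.1 i : ℝ) ^ (n i))⁻¹ := by
    intro M
    rw [hz_eq, hG]
    rw [sum_subtype_of_mem (fun k : Fin r → ℕ => ∏ i, ((k i : ℝ) ^ (n i))⁻¹)]
    intro k hk
    rw [mem_FT] at hk
    exact ⟨hk.1, fun i => (hk.2 i).1⟩
  have hmono : Monotone G := by
    intro a b hab k hk
    rw [hmemG] at hk ⊢
    intro i
    have := hk i
    omega
  have hex : ∀ k, ∃ M, k ∈ G M := by
    intro k
    refine ⟨univ.sup k.1, ?_⟩
    rw [hmemG]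
    intro i
    have : k.1 i ≤ univ.sup k.1 := le_sup (f := k.1) (mem_univ i)
    omega
  have htend : Tendsto G atTop atTop := tendsto_atTop_finset_of_monotone hmono hex
  have hnn : ∀ k : {k : Fin r → ℕ // StrictAnti k ∧ ∀ i, N < k i}, 0 ≤ ∏ i, ((k.1 i : ℝ) ^ (n i))⁻¹ :=
    fun k => prod_nonneg fun i _ => by positivity
  have hmon2 : Monotone fun M => hz N (List.ofFn n) M := by
    intro a b hab
    simp only [hsum]
    exact sum_le_sum_of_subset_of_nonneg (hmono hab) fun k _ _ => hnn k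
  have hsm : Summable fun k : {k : Fin r → ℕ // StrictAnti k ∧ ∀ i, N < k i} =>
      ∏ i, ((k.1 i : ℝ) ^ (n i))⁻¹ := by
    refine summable_of_sum_le (c := t (List.ofFn n) N) hnn fun u => ?_
    obtain ⟨M, hM⟩ := (htend.eventually (eventually_ge_atTop u)).exists
    calc ∑ k ∈ u, ∏ i, ((k.1 i : ℝ) ^ (n i))⁻¹ ≤ ∑ k ∈ G M, ∏ i, ((k.1 i : ℝ) ^ (n i))⁻¹ :=
          sum_le_sum_of_subset_of_nonneg hM fun k _ _ => hnn k
      _ = hz N (List.ofFn n) M := (hsum M).symm
      _ ≤ t (List.ofFn n) N := hmon2.ge_of_tendsto hlim M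
  have h1 := hsm.hasSum.comp htend
  have h2 : Tendsto (fun M => hz N (List.ofFn n) M) atTop
      (nhds (∑' k : {k : Fin r → ℕ // StrictAnti k ∧ ∀ i, N < k i}, ∏ i, ((k.1 i : ℝ) ^ (n i))⁻¹)) := by
    refine h1.congr fun M => ?_
    rw [hsum]
    rfl
  exact tendsto_nhds_unique hlim h2

/-- tuples of `2`s and `3`s as words -/
noncomputable def tupEquiv : (Σ r : ℕ, {n : Fin r → ℕ // ∀ i, n i = 2 ∨ n i = 3}) ≃
    {w : List ℕ // ∀ n ∈ w, n = 2 ∨ n = 3} :=
  Equiv.ofBijective (fun x => ⟨List.ofFn x.2.1, fun m hm => by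
    obtain ⟨i, rfl⟩ := (List.mem_ofFn' _ _).1 hm
    exact x.2.2 i⟩) (by
    constructor
    · rintro ⟨r, n, hn⟩ ⟨r', n', hn'⟩ h
      have h1 := congrArg Subtype.val h
      have h2 := List.ofFn_inj'.1 h1
      cases h2
      rfl
    · rintro ⟨l, hl⟩
      exact ⟨⟨l.length, l.get, fun i => hl _ (List.get_mem l i)⟩, Subtype.ext (List.ofFn_get l)⟩)

theorem tupEquiv_val (x : Σ r : ℕ, {n : Fin r → ℕ // ∀ i, n i = 2 ∨ n i = 3}) :
    (tupEquiv x).1 = List.ofFn x.2.1 := rfl

end Pool.Agent.V7H62.DH
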