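import Mathlib

/-!
# Truncated multiple zeta values: discrete Hardy fields. Definitions and the statements of the parts.
-/

set_option autoImplicit false

open Filter Finset

namespace Pool.Agent.V7H62.DH

/-- The truncated multiple zeta value `∑ 1 / (k₁^n₁ ⋯ k_r^n_r)` over `N ≥ k₁ > ⋯ > k_r ≥ 1` of the word
`n₁ :: ⋯ :: n_r`. -/
noncomputable def z : List ℕ → ℕ → ℝ
  | [], _ => 1
  | n :: w, N => ∑ k ∈ range N, z w k / ((k : ℝ) + 1) ^ n

/-- A discrete Hardy field: a set of sequences, each of them eventually zero, or eventually positive,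
or eventually negative, which contains the constants and the sequence `N` and is closed under sums,
products, inverses and the shift. -/
structure IsHF (H : Set (ℕ → ℝ)) : Prop where
  dich : ∀ f ∈ H, (∀ᶠ N in atTop, f N = 0) ∨ (∀ᶠ N in atTop, 0 < f N) ∨ (∀ᶠ N in atTop, f N < 0)
  const : ∀ c : ℝ, (fun _ => c) ∈ H
  nat : (fun N : ℕ => (N : ℝ)) ∈ H
  add : ∀ f ∈ H, ∀ g ∈ H, (fun N => f N + g N) ∈ H
  mul : ∀ f ∈ H, ∀ g ∈ H, (fun N => f N * g N) ∈ H
  inv : ∀ f ∈ H, (fun N => (f N)⁻¹) ∈ H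
  shift : ∀ f ∈ H, (fun N => f (N + 1)) ∈ H

/-- (MAX) There is a discrete Hardy field closed under summation. -/
def S_MAX : Prop := ∃ H : Set (ℕ → ℝ), IsHF H ∧ ∀ y : ℕ → ℝ, (fun N => y (N + 1) - y N) ∈ H → y ∈ H

/-- (CHEB) Linearly independent elements `f 0, ..., f (s - 1)` of a discrete Hardy field form a
Chebyshev system near infinity: no nontrivial linear combination is weakly alternating at
`s + 1` points `N 0 < ... < N s`. -/
def S_CHEB : Prop := ∀ H : Set (ℕ → ℝ), IsHF H → ∀ (s : ℕ) (f : ℕ → ℕ → ℝ), (∀ j < s, f j ∈ H) →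
  (∀ c : ℕ → ℝ, (∀ᶠ N in atTop, ∑ j ∈ range s, c j * f j N = 0) → ∀ j < s, c j = 0) →
  ∃ N₀ : ℕ, ∀ c : ℕ → ℝ, (∃ j < s, c j ≠ 0) → ∀ (ε : ℝ) (N : ℕ → ℕ), ε ≠ 0 → N₀ ≤ N 0 →
    (∀ i < s, N i < N (i + 1)) →
    ¬ ∀ i ≤ s, 0 ≤ ε * (-1) ^ i * ∑ j ∈ range s, c j * f j (N i)

/-- (IND) The truncated values of different words of positive integers are linearly independent over
the polynomials in `N`. -/
def S_IND : Prop := ∀ S : Finset (List ℕ), (∀ w ∈ S, ∀ n ∈ w, 1 ≤ n) → ∀ P : List ℕ → Polynomial ℝ,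
  (∀ᶠ N : ℕ in atTop, ∑ w ∈ S, (P w).eval (N : ℝ) * z w N = 0) → ∀ w ∈ S, P w = 0

end Pool.Agent.V7H62.DH
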