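import Pool.Agent.V7H62.DH.Spec

/-!
# Zeros and determinants in discrete Hardy fields, from (CHEB)
-/

set_option autoImplicit false

open Filter Finset

namespace Pool.Agent.V7H62.DH

variable {H : Set (ℕ → ℝ)}

lemma pos_aux {a b : ℝ} (h : 0 < a * b) (hb : 0 ≤ b) : 0 < a := by
  by_contra hc
  have := mul_nonpos_of_nonpos_of_nonneg (not_lt.1 hc) hb
  linarith

/-- (CHEB) for families indexed by `Fin s` -/
theorem cheb_fin (hC : S_CHEB) (hH : IsHF H) {s : ℕ} {f : Fin s → ℕ → ℝ} (hf : ∀ j, f j ∈ H)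
    (hi : ∀ c : Fin s → ℝ, (∀ᶠ N in atTop, ∑ j, c j * f j N = 0) → c = 0) :
    ∃ N₀ : ℕ, ∀ c : Fin s → ℝ, c ≠ 0 → ∀ (ε : ℝ) (N : ℕ → ℕ), ε ≠ 0 → N₀ ≤ N 0 →
      (∀ i < s, N i < N (i + 1)) → ¬ ∀ i ≤ s, 0 ≤ ε * (-1) ^ i * ∑ j, c j * f j (N i) := by
  obtain ⟨N₀, hN⟩ := hC H hH s (fun j N => if h : j < s then f ⟨j, h⟩ N else 0)
    (fun j hj => by simpa only [hj, dif_pos] using hf ⟨j, hj⟩) (fun c hc j hj => by
      have h1 := hi (fun j => c j) (by
        filter_upwards [hc] with N h1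
        rw [← h1, sum_range]
        exact sum_congr rfl fun j _ => by simp)
      exact congrFun h1 ⟨j, hj⟩)
  refine ⟨N₀, fun c hc ε N hε h0 hm h1 => ?_⟩
  obtain ⟨j, hj⟩ := Function.ne_iff.1 hc
  refine hN (fun j => if h : j < s then c ⟨j, h⟩ else 0) ⟨j, j.2, by simpa using hj⟩ ε N hε h0 hm
    fun i hi' => ?_
  have h2 := h1 i hi'
  convert h2 using 2
  rw [sum_range]
  exact sum_congr rfl fun j _ => by simp

/-- few zeros -/
theorem few_zeros {s : ℕ} {f : Fin s → ℕ → ℝ} {N₀ : ℕ}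
    (h : ∀ c : Fin s → ℝ, c ≠ 0 → ∀ (ε : ℝ) (N : ℕ → ℕ), ε ≠ 0 → N₀ ≤ N 0 →
      (∀ i < s, N i < N (i + 1)) → ¬ ∀ i ≤ s, 0 ≤ ε * (-1) ^ i * ∑ j, c j * f j (N i))
    (c : Fin s → ℝ) (hc : c ≠ 0) (N : Fin s → ℕ) (hN : StrictMono N) (h0 : ∀ i, N₀ ≤ N i)
    (hz : ∀ i, ∑ j, c j * f j (N i) = 0) : False := by
  obtain ⟨M, hM⟩ : ∃ M : ℕ, ∀ i, N i < M :=
    ⟨(univ.sup N) + 1, fun i => Nat.lt_succ_of_le (le_sup (mem_univ i))⟩
  obtain ⟨Q, hQ⟩ : ∃ Q : ℕ → ℕ, Q = fun k => if h : k < s then N ⟨k, h⟩ else max M N₀ + (k - s) :=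
    ⟨_, rfl⟩
  have hQ1 : ∀ k (h : k < s), Q k = N ⟨k, h⟩ := fun k h => by rw [hQ]; simp [h]
  have hQ2 : Q s = max M N₀ := by rw [hQ]; simp
  obtain ⟨ε, hε, h2⟩ : ∃ ε : ℝ, ε ≠ 0 ∧ 0 ≤ ε * (-1) ^ s * ∑ j, c j * f j (Q s) := by
    by_cases h3 : ∑ j, c j * f j (Q s) = 0
    · exact ⟨1, one_ne_zero, by rw [h3]; simp⟩
    · refine ⟨(-1) ^ s * ∑ j, c j * f j (Q s), mul_ne_zero (pow_ne_zero _ (by norm_num)) h3, ?_⟩
      have e : (-1 : ℝ) ^ s * (∑ j, c j * f j (Q s)) * (-1) ^ s * ∑ j, c j * f j (Q s) =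
          ((-1) ^ s * ∑ j, c j * f j (Q s)) ^ 2 := by ring
      rw [e]
      positivity
  refine h c hc ε Q hε ?_ ?_ ?_
  · rcases Nat.eq_zero_or_pos s with h3 | h3
    · have h4 : Q 0 = max M N₀ := by
        have := hQ2
        rwa [h3] at this
      rw [h4]
      exact le_max_right _ _
    · rw [hQ1 0 h3]
      exact h0 _
  · intro i hi
    rcases Nat.lt_or_ge (i + 1) s with h3 | h3
    · rw [hQ1 i hi, hQ1 (i + 1) h3]
      exact hN (Fin.mk_lt_mk.2 (Nat.lt_succ_self i))
    · have h4 : i + 1 = s := by omega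
      rw [hQ1 i hi, h4, hQ2]
      exact lt_of_lt_of_le (hM _) (le_max_left _ _)
  · intro i hi
    rcases Nat.lt_or_ge i s with h3 | h3
    · rw [hQ1 i h3, hz]
      simp
    · have h4 : i = s := by omega
      rw [h4]
      exact h2

/-- the determinant -/
noncomputable def dt {s : ℕ} (f : Fin s → ℕ → ℝ) (N : Fin s → ℕ) : ℝ :=
  (Matrix.of fun i j => f j (N i)).det

theorem dt_ne_zero {s : ℕ} {f : Fin s → ℕ → ℝ} {N₀ : ℕ}
    (h : ∀ c : Fin s → ℝ, c ≠ 0 → ∀ (ε : ℝ) (N : ℕ → ℕ), ε ≠ 0 → N₀ ≤ N 0 →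
      (∀ i < s, N i < N (i + 1)) → ¬ ∀ i ≤ s, 0 ≤ ε * (-1) ^ i * ∑ j, c j * f j (N i))
    (N : Fin s → ℕ) (hN : StrictMono N) (h0 : ∀ i, N₀ ≤ N i) : dt f N ≠ 0 := by
  intro hd
  obtain ⟨c, hc, h1⟩ := Matrix.exists_mulVec_eq_zero_iff.2 hd
  refine few_zeros h c hc N hN h0 fun i => ?_
  have h2 := congrFun h1 i
  simp only [Matrix.mulVec, dotProduct, Matrix.of_apply, Pi.zero_apply] at h2
  rw [← h2]
  exact sum_congr rfl fun j _ => mul_comm _ _

/-- moving one point -/
theorem dt_step {s : ℕ} {f : Fin s → ℕ → ℝ} {N₀ : ℕ}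
    (h : ∀ c : Fin s → ℝ, c ≠ 0 → ∀ (ε : ℝ) (N : ℕ → ℕ), ε ≠ 0 → N₀ ≤ N 0 →
      (∀ i < s, N i < N (i + 1)) → ¬ ∀ i ≤ s, 0 ≤ ε * (-1) ^ i * ∑ j, c j * f j (N i))
    (N : Fin s → ℕ) (hN : StrictMono N) (h0 : ∀ i, N₀ ≤ N i) (i : Fin s) (a : ℕ) (ha : N i < a)
    (hN' : StrictMono (Function.update N i a)) :
    0 < dt f N * dt f (Function.update N i a) := by
  have hne := dt_ne_zero h N hN h0
  have h0' : ∀ k, N₀ ≤ Function.update N i a k := by
    intro k
    by_cases hk : k = i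
    · rw [hk, Function.update_self]
      exact (h0 i).trans ha.le
    · rw [Function.update_of_ne hk]
      exact h0 k
  have hne' := dt_ne_zero h _ hN' h0'
  by_contra hcon
  have hneg : dt f N * dt f (Function.update N i a) < 0 :=
    lt_of_le_of_ne (not_lt.1 hcon) (mul_ne_zero hne hne')
  -- the function of the point
  obtain ⟨A, hA⟩ : ∃ A : Matrix (Fin s) (Fin s) ℝ, A = Matrix.of fun k j => f j (N k) := ⟨_, rfl⟩
  obtain ⟨c, hc⟩ : ∃ c : Fin s → ℝ, c = fun j => Matrix.cramer A.transpose (Pi.single j 1) i :=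
    ⟨_, rfl⟩
  have hG : ∀ x : ℕ, ∑ j, c j * f j x = dt f (Function.update N i x) := by
    intro x
    have h1 : dt f (Function.update N i x) = (A.updateRow i fun j => f j x).det := by
      rw [dt]
      congr 1
      ext k j
      by_cases hk : k = i
      · subst hk
        simp [Matrix.updateRow_self]
      · simp [Matrix.updateRow_ne hk, Function.update_of_ne hk, hA]
    rw [h1, ← Matrix.cramer_transpose_apply]
    have h2 : (fun j => f j x) = ∑ j, f j x • (Pi.single j 1 : Fin s → ℝ) := by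
      ext k
      simp [Finset.sum_apply, Pi.single_apply]
    rw [h2, map_sum, Finset.sum_apply]
    refine sum_congr rfl fun j _ => ?_
    rw [map_smul, Pi.smul_apply, smul_eq_mul, hc]
    ring
  have hGi : ∑ j, c j * f j (N i) = dt f N := by
    rw [hG, Function.update_eq_self]
  have hGk : ∀ k, k ≠ i → ∑ j, c j * f j (N k) = 0 := by
    intro k hk
    rw [hG, dt]
    refine Matrix.det_zero_of_row_eq hk ?_
    ext j
    simp [Function.update_of_ne hk]
  have hcne : c ≠ 0 := by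
    intro hc0
    rw [hc0] at hGi
    apply hne
    rw [← hGi]
    simp
  -- the points
  obtain ⟨Q, hQ⟩ : ∃ Q : ℕ → ℕ, Q = fun k : ℕ => if k ≤ (i : ℕ) then (if h : k < s then N ⟨k, h⟩ else 0)
      else if k = (i : ℕ) + 1 then a else (if h : k - 1 < s then N ⟨k - 1, h⟩ else 0) := ⟨_, rfl⟩
  have hQ1 : ∀ (k : ℕ) (hk : k ≤ (i : ℕ)), Q k = N ⟨k, lt_of_le_of_lt hk i.2⟩ := fun k hk => by
    rw [hQ]; simp [hk, lt_of_le_of_lt hk i.2]
  have hQ2 : Q ((i : ℕ) + 1) = a := by rw [hQ]; simp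
  have hQ3 : ∀ (k : ℕ) (hk : (i : ℕ) + 1 < k) (hk' : k ≤ s), Q k = N ⟨k - 1, by omega⟩ := fun k hk hk' => by
    rw [hQ]
    have e1 : ¬ k ≤ (i : ℕ) := by omega
    have e2 : ¬ k = (i : ℕ) + 1 := by omega
    have e3 : k - 1 < s := by omega
    simp [e1, e2, e3]
  refine h c hcne ((-1) ^ (i : ℕ) * dt f N) Q (mul_ne_zero (pow_ne_zero _ (by norm_num)) hne) ?_ ?_ ?_
  · rw [hQ1 0 (Nat.zero_le _)]
    exact h0 _
  · intro k hk
    rcases Nat.lt_trichotomy k i with h1 | h1 | h1
    · rw [hQ1 k h1.le, hQ1 (k + 1) h1]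
      exact hN (Fin.mk_lt_mk.2 (Nat.lt_succ_self k))
    · have e : (⟨k, lt_of_le_of_lt h1.le i.2⟩ : Fin s) = i := Fin.ext h1
      rw [hQ1 k h1.le, e, h1, hQ2]
      exact ha
    · rcases Nat.lt_or_ge ((i : ℕ) + 1) k with h2 | h2
      · rw [hQ3 k h2 hk.le, hQ3 (k + 1) (by omega) hk]
        exact hN (Fin.mk_lt_mk.2 (by omega))
      · have h3 : k = (i : ℕ) + 1 := by omega
        subst h3
        rw [hQ3 ((i : ℕ) + 1 + 1) (by omega) hk, hQ2]
        have h4 := hN' (show i < (⟨(i : ℕ) + 1 + 1 - 1, by omega⟩ : Fin s) from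
          Fin.lt_def.2 (by simp))
        rw [Function.update_self, Function.update_of_ne] at h4
        · exact h4
        · intro h5
          have := congrArg Fin.val h5
          simp at this
  · intro k hk
    rcases Nat.lt_trichotomy k i with h1 | h1 | h1
    · rw [hQ1 k h1.le, hGk]
      · simp
      · intro h5
        have := congrArg Fin.val h5
        simp at this
        omega
    · rw [hQ1 k h1.le]
      have e : (⟨k, lt_of_le_of_lt h1.le i.2⟩ : Fin s) = i := Fin.ext h1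
      rw [e, hGi, h1]
      have e2 : (-1 : ℝ) ^ (i : ℕ) * dt f N * (-1) ^ (i : ℕ) * dt f N =
          ((-1) ^ (i : ℕ) * dt f N) ^ 2 := by ring
      rw [e2]
      positivity
    · rcases Nat.lt_or_ge ((i : ℕ) + 1) k with h2 | h2
      · rw [hQ3 k h2 hk, hGk]
        · simp
        · intro h5
          have := congrArg Fin.val h5
          simp at this
          omega
      · have h3 : k = (i : ℕ) + 1 := by omega
        rw [h3, hQ2, hG]
        have e2 : (-1 : ℝ) ^ (i : ℕ) * dt f N * (-1) ^ ((i : ℕ) + 1) * dt f (Function.update N i a) =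
            - (((-1 : ℝ) ^ (i : ℕ)) ^ 2 * (dt f N * dt f (Function.update N i a))) := by ring
        rw [e2, ← pow_mul, mul_comm (i : ℕ) 2, pow_mul, neg_one_sq, one_pow, one_mul]
        linarith

/-- moving all points to the right -/
theorem dt_le {s : ℕ} {f : Fin s → ℕ → ℝ} {N₀ : ℕ}
    (h : ∀ c : Fin s → ℝ, c ≠ 0 → ∀ (ε : ℝ) (N : ℕ → ℕ), ε ≠ 0 → N₀ ≤ N 0 →
      (∀ i < s, N i < N (i + 1)) → ¬ ∀ i ≤ s, 0 ≤ ε * (-1) ^ i * ∑ j, c j * f j (N i))
    (N M : Fin s → ℕ) (hN : StrictMono N) (hM : StrictMono M) (h0 : ∀ i, N₀ ≤ N i)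
    (hle : ∀ i, N i ≤ M i) : 0 < dt f N * dt f M := by
  have key : ∀ k : ℕ, 0 < dt f N * dt f (fun i => if (i : ℕ) < k then N i else M i) → 
      0 < dt f N * dt f M := by
    intro k
    induction k with
    | zero => intro h1; simpa using h1
    | succ k ih =>
      intro h1
      apply ih
      rcases Nat.lt_or_ge k s with hk | hk
      · obtain ⟨i, hi⟩ : ∃ i : Fin s, (i : ℕ) = k := ⟨⟨k, hk⟩, rfl⟩
        obtain ⟨B, hB⟩ : ∃ B : Fin s → ℕ, B = fun i : Fin s => if (i : ℕ) < k + 1 then N i else M i :=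
          ⟨_, rfl⟩
        have hBmono : ∀ k' : ℕ, StrictMono (fun i : Fin s => if (i : ℕ) < k' then N i else M i) := by
          intro k' x y hxy
          have hxy' : (x : ℕ) < y := hxy
          by_cases h3 : (y : ℕ) < k'
          · have h4 : (x : ℕ) < k' := by omega
            simp only [h3, h4, if_true]
            exact hN hxy
          · by_cases h4 : (x : ℕ) < k'
            · simp only [h3, h4, if_true, if_false]
              exact lt_of_lt_of_le (hN hxy) (hle y)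
            · simp only [h3, h4, if_false]
              exact hM hxy
        have hu : (fun i : Fin s => if (i : ℕ) < k then N i else M i) = Function.update B i (M i) := by
          ext x
          by_cases hx : x = i
          · rw [hx, Function.update_self]
            simp [hi]
          · rw [Function.update_of_ne hx, hB]
            have hx' : (x : ℕ) ≠ k := fun h5 => hx (Fin.ext (h5.trans hi.symm))
            by_cases h3 : (x : ℕ) < k
            · simp [h3, Nat.lt_succ_of_lt h3]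
            · have h4 : ¬ (x : ℕ) < k + 1 := by omega
              simp [h3, h4]
        rw [← hB] at h1
        rw [hu]
        have hBi : B i = N i := by rw [hB]; simp [hi]
        rcases (hle i).lt_or_eq with h3 | h3
        · have h4 := dt_step h B (by rw [hB]; exact hBmono (k + 1)) (fun x => by
              rw [hB]
              by_cases h5 : (x : ℕ) < k + 1
              · simp only [h5, if_true]; exact h0 x
              · simp only [h5, if_false]; exact (h0 x).trans (hle x)) i (M i) (by rw [hBi]; exact h3)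
            (by rw [← hu]; exact hBmono k)
          have h5 := mul_pos h1 h4
          have e : dt f N * dt f B * (dt f B * dt f (Function.update B i (M i))) =
              dt f N * dt f (Function.update B i (M i)) * (dt f B) ^ 2 := by ring
          rw [e] at h5
          exact pos_aux h5 (by positivity)
        · rw [← h3, ← hBi, Function.update_eq_self]
          exact h1
      · have e : (fun i : Fin s => if (i : ℕ) < k then N i else M i) =
            fun i : Fin s => if (i : ℕ) < k + 1 then N i else M i := by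
          ext x
          have := x.2
          have h3 : (x : ℕ) < k := by omega
          have h4 : (x : ℕ) < k + 1 := by omega
          simp only [h3, h4, if_true]
        rw [e]
        exact h1
  refine key s ?_
  have e : (fun i : Fin s => if (i : ℕ) < s then N i else M i) = N := by
    ext x
    simp
  rw [e]
  exact mul_self_pos.2 (dt_ne_zero h N hN h0)

/-- the determinant has a constant sign -/
theorem det_sign (hC : S_CHEB) (hH : IsHF H) {s : ℕ} {f : Fin s → ℕ → ℝ} (hf : ∀ j, f j ∈ H)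
    (hi : ∀ c : Fin s → ℝ, (∀ᶠ N in atTop, ∑ j, c j * f j N = 0) → c = 0) :
    ∃ (N₀ : ℕ) (σ : ℝ), (σ = 1 ∨ σ = -1) ∧ ∀ N : Fin s → ℕ, StrictMono N → (∀ i, N₀ ≤ N i) →
      0 < σ * dt f N := by
  obtain ⟨N₀, h⟩ := cheb_fin hC hH hf hi
  obtain ⟨B, hB⟩ : ∃ B : Fin s → ℕ, B = fun i : Fin s => N₀ + (i : ℕ) := ⟨_, rfl⟩
  have hBm : StrictMono B := by
    rw [hB]
    intro x y hxy
    have : (x : ℕ) < y := hxy
    simp only []
    omega
  have hB0 : ∀ i, N₀ ≤ B i := fun i => by rw [hB]; exact Nat.le_add_right _ _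
  have key : ∀ N : Fin s → ℕ, StrictMono N → (∀ i, N₀ ≤ N i) → 0 < dt f B * dt f N := by
    intro N hN hN0
    obtain ⟨K, hK⟩ : ∃ K : ℕ, ∀ i, N i ≤ K := ⟨univ.sup N, fun i => le_sup (mem_univ i)⟩
    obtain ⟨L, hL⟩ : ∃ L : Fin s → ℕ, L = fun i : Fin s => max K N₀ + (i : ℕ) := ⟨_, rfl⟩
    have hLm : StrictMono L := by
      rw [hL]
      intro x y hxy
      have : (x : ℕ) < y := hxy
      simp only []
      omega
    have h1 := dt_le h N L hN hLm hN0 fun i => by
      rw [hL]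
      exact (hK i).trans ((le_max_left _ _).trans (Nat.le_add_right _ _))
    have h2 := dt_le h B L hBm hLm hB0 fun i => by
      rw [hL, hB]
      exact Nat.add_le_add_right (le_max_right _ _) _
    have h3 := mul_pos h1 h2
    have e : dt f N * dt f L * (dt f B * dt f L) = dt f B * dt f N * (dt f L) ^ 2 := by ring
    rw [e] at h3
    exact pos_aux h3 (by positivity)
  rcases lt_or_gt_of_ne (dt_ne_zero h B hBm hB0) with h1 | h1
  · refine ⟨N₀, -1, Or.inr rfl, fun N hN hN0 => ?_⟩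
    have h2 := key N hN hN0
    have h3 := neg_of_mul_pos_right h2 h1.le
    linarith
  · refine ⟨N₀, 1, Or.inl rfl, fun N hN hN0 => ?_⟩
    have h2 := key N hN hN0
    have h3 := pos_aux (by rwa [mul_comm] at h2) h1.le
    linarith

end Pool.Agent.V7H62.DH
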