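import Pool.Agent.V7H62.DH.Spec

/-!
# (MAX) A discrete Hardy field closed under summation
-/

set_option autoImplicit false

open Filter Finset

namespace Pool.Agent.V7H62.DH

/-- eventually zero, positive or negative -/
def Dich (f : ℕ → ℝ) : Prop :=
  (∀ᶠ N in atTop, f N = 0) ∨ (∀ᶠ N in atTop, 0 < f N) ∨ (∀ᶠ N in atTop, f N < 0)

/-- discrete Hardy fields without the condition on `N`, closed under eventual equality -/
structure HF0 (H : Set (ℕ → ℝ)) : Prop where
  dich : ∀ f ∈ H, Dich f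
  const : ∀ c : ℝ, (fun _ => c) ∈ H
  add : ∀ f ∈ H, ∀ g ∈ H, (fun N => f N + g N) ∈ H
  mul : ∀ f ∈ H, ∀ g ∈ H, (fun N => f N * g N) ∈ H
  inv : ∀ f ∈ H, (fun N => (f N)⁻¹) ∈ H
  shift : ∀ f ∈ H, (fun N => f (N + 1)) ∈ H
  germ : ∀ f ∈ H, ∀ g : ℕ → ℝ, (∀ᶠ N in atTop, g N = f N) → g ∈ H

lemma Dich.congr {f g : ℕ → ℝ} (h : Dich f) (hg : ∀ᶠ N in atTop, g N = f N) : Dich g := by
  rcases h with h | h | h
  · exact Or.inl (by filter_upwards [h, hg] with N h1 h2; rw [h2, h1])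
  · exact Or.inr (Or.inl (by filter_upwards [h, hg] with N h1 h2; rw [h2]; exact h1))
  · exact Or.inr (Or.inr (by filter_upwards [h, hg] with N h1 h2; rw [h2]; exact h1))

lemma Dich.mul {f g : ℕ → ℝ} (hf : Dich f) (hg : Dich g) : Dich (fun N => f N * g N) := by
  rcases hf with h | h | h
  · exact Or.inl (by filter_upwards [h] with N h1; rw [h1, zero_mul])
  · rcases hg with h' | h' | h'
    · exact Or.inl (by filter_upwards [h'] with N h1; rw [h1, mul_zero])
    · exact Or.inr (Or.inl (by filter_upwards [h, h'] with N h1 h2; exact mul_pos h1 h2))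
    · exact Or.inr (Or.inr (by filter_upwards [h, h'] with N h1 h2; exact mul_neg_of_pos_of_neg h1 h2))
  · rcases hg with h' | h' | h'
    · exact Or.inl (by filter_upwards [h'] with N h1; rw [h1, mul_zero])
    · exact Or.inr (Or.inr (by filter_upwards [h, h'] with N h1 h2; exact mul_neg_of_neg_of_pos h1 h2))
    · exact Or.inr (Or.inl (by filter_upwards [h, h'] with N h1 h2; exact mul_pos_of_neg_of_neg h1 h2))

lemma Dich.inv {f : ℕ → ℝ} (hf : Dich f) : Dich (fun N => (f N)⁻¹) := by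
  rcases hf with h | h | h
  · exact Or.inl (by filter_upwards [h] with N h1; rw [h1, inv_zero])
  · exact Or.inr (Or.inl (by filter_upwards [h] with N h1; exact inv_pos.2 h1))
  · exact Or.inr (Or.inr (by filter_upwards [h] with N h1; exact inv_lt_zero.2 h1))

/-- an eventually monotone sequence has a sign -/
lemma Dich.of_diff {h : ℕ → ℝ} (hd : Dich (fun N => h (N + 1) - h N)) : Dich h := by
  rcases hd with hd | hd | hd
  · obtain ⟨N₀, hN⟩ := eventually_atTop.1 hd
    have hc : ∀ N, N₀ ≤ N → h N = h N₀ := by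
      intro N hN0
      induction N, hN0 using Nat.le_induction with
      | base => rfl
      | succ k hk ih =>
        have := hN k hk
        linarith
    rcases lt_trichotomy (h N₀) 0 with h0 | h0 | h0
    · exact Or.inr (Or.inr (eventually_atTop.2 ⟨N₀, fun N hN => by rw [hc N hN]; exact h0⟩))
    · exact Or.inl (eventually_atTop.2 ⟨N₀, fun N hN => by rw [hc N hN]; exact h0⟩)
    · exact Or.inr (Or.inl (eventually_atTop.2 ⟨N₀, fun N hN => by rw [hc N hN]; exact h0⟩))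
  · obtain ⟨N₀, hN⟩ := eventually_atTop.1 hd
    have hc : ∀ M, N₀ ≤ M → ∀ N, M < N → h M < h N := by
      intro M hM N hMN
      induction N, hMN using Nat.le_induction with
      | base =>
        have := hN M hM
        linarith
      | succ k hk ih =>
        have hk' : M < k := hk
        have := hN k (hM.trans hk'.le)
        linarith
    by_cases hex : ∃ M, N₀ ≤ M ∧ 0 ≤ h M
    · obtain ⟨M, hM, h0⟩ := hex
      exact Or.inr (Or.inl (eventually_atTop.2 ⟨M + 1, fun N hN =>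
        lt_of_le_of_lt h0 (hc M hM N (by omega))⟩))
    · push Not at hex
      exact Or.inr (Or.inr (eventually_atTop.2 ⟨N₀, fun N hN => hex N hN⟩))
  · obtain ⟨N₀, hN⟩ := eventually_atTop.1 hd
    have hc : ∀ M, N₀ ≤ M → ∀ N, M < N → h N < h M := by
      intro M hM N hMN
      induction N, hMN using Nat.le_induction with
      | base =>
        have := hN M hM
        linarith
      | succ k hk ih =>
        have hk' : M < k := hk
        have := hN k (hM.trans hk'.le)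
        linarith
    by_cases hex : ∃ M, N₀ ≤ M ∧ h M ≤ 0
    · obtain ⟨M, hM, h0⟩ := hex
      exact Or.inr (Or.inr (eventually_atTop.2 ⟨M + 1, fun N hN =>
        lt_of_lt_of_le (hc M hM N (by omega)) h0⟩))
    · push Not at hex
      exact Or.inr (Or.inl (eventually_atTop.2 ⟨N₀, fun N hN => hex N hN⟩))

section ext

variable {H : Set (ℕ → ℝ)} {y : ℕ → ℝ}

/-- polynomials in `y` of degree less than `m` over `H` -/
def Pl (H : Set (ℕ → ℝ)) (y : ℕ → ℝ) (m : ℕ) : Set (ℕ → ℝ) :=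
  {g | ∃ a : ℕ → ℕ → ℝ, (∀ i, a i ∈ H) ∧ ∀ᶠ N in atTop, g N = ∑ i ∈ range m, a i N * y N ^ i}

lemma Pl.congr {m : ℕ} {f g : ℕ → ℝ} (hf : f ∈ Pl H y m) (h : ∀ᶠ N in atTop, g N = f N) :
    g ∈ Pl H y m := by
  obtain ⟨a, ha, h1⟩ := hf
  exact ⟨a, ha, by filter_upwards [h1, h] with N h1 h2; rw [h2, h1]⟩

lemma Pl.mono (hH : HF0 H) {m m' : ℕ} (h : m ≤ m') {f : ℕ → ℝ} (hf : f ∈ Pl H y m) :
    f ∈ Pl H y m' := by
  obtain ⟨a, ha, h1⟩ := hf
  refine ⟨fun i => if i < m then a i else fun _ => 0, fun i => ?_, ?_⟩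
  · by_cases hi : i < m
    · simp only [hi, if_true]; exact ha i
    · simp only [hi, if_false]; exact hH.const 0
  · filter_upwards [h1] with N h1
    rw [h1]
    have h2 : ∑ i ∈ range m, a i N * y N ^ i =
        ∑ i ∈ range m, (if i < m then a i else fun _ => 0) N * y N ^ i :=
      sum_congr rfl fun i hi => by rw [if_pos (mem_range.1 hi)]
    rw [h2]
    apply sum_subset (range_mono h)
    intro i _ hi
    rw [if_neg (by rwa [mem_range] at hi)]
    ring

lemma Pl.add (hH : HF0 H) {m : ℕ} {f g : ℕ → ℝ} (hf : f ∈ Pl H y m) (hg : g ∈ Pl H y m) :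
    (fun N => f N + g N) ∈ Pl H y m := by
  obtain ⟨a, ha, h1⟩ := hf
  obtain ⟨b, hb, h2⟩ := hg
  refine ⟨fun i N => a i N + b i N, fun i => hH.add _ (ha i) _ (hb i), ?_⟩
  filter_upwards [h1, h2] with N h1 h2
  rw [h1, h2, ← sum_add_distrib]
  exact sum_congr rfl fun i _ => by ring

lemma Pl.smul (hH : HF0 H) {m : ℕ} {c f : ℕ → ℝ} (hc : c ∈ H) (hf : f ∈ Pl H y m) :
    (fun N => c N * f N) ∈ Pl H y m := by
  obtain ⟨a, ha, h1⟩ := hf
  refine ⟨fun i N => c N * a i N, fun i => hH.mul _ hc _ (ha i), ?_⟩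
  filter_upwards [h1] with N h1
  rw [h1, mul_sum]
  exact sum_congr rfl fun i _ => by ring

lemma Pl.ymul (hH : HF0 H) {m : ℕ} {f : ℕ → ℝ} (hf : f ∈ Pl H y m) :
    (fun N => y N * f N) ∈ Pl H y (m + 1) := by
  obtain ⟨a, ha, h1⟩ := hf
  refine ⟨fun i => match i with
    | 0 => fun _ => 0
    | i + 1 => a i, fun i => ?_, ?_⟩
  · cases i with
    | zero => exact hH.const 0
    | succ i => exact ha i
  · filter_upwards [h1] with N h1
    rw [h1, sum_range_succ', mul_sum]
    simp only [zero_mul, add_zero]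
    exact sum_congr rfl fun i _ => by ring

lemma Pl.mono1 (hH : HF0 H) {c : ℕ → ℝ} (hc : c ∈ H) {i m : ℕ} (h : i < m) :
    (fun N => c N * y N ^ i) ∈ Pl H y m := by
  refine ⟨fun j => if j = i then c else fun _ => 0, fun j => ?_, Eventually.of_forall fun N => ?_⟩
  · by_cases hj : j = i
    · simp only [hj, if_true]; exact hc
    · simp only [hj, if_false]; exact hH.const 0
  · rw [sum_eq_single i]
    · simp
    · intro j _ hj
      simp only [hj, if_false]
      ring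
    · intro h'
      exact absurd (mem_range.2 h) h'

lemma Pl.zero (hH : HF0 H) (m : ℕ) : (fun _ => (0 : ℝ)) ∈ Pl H y m :=
  ⟨fun _ _ => 0, fun _ => hH.const 0, Eventually.of_forall fun N => by simp⟩

lemma Pl.sum (hH : HF0 H) {m k : ℕ} {f : ℕ → ℕ → ℝ} (hf : ∀ i < k, f i ∈ Pl H y m) :
    (fun N => ∑ i ∈ range k, f i N) ∈ Pl H y m := by
  induction k with
  | zero => simpa using Pl.zero hH m
  | succ k ih =>
    have h1 := Pl.add hH (ih fun i hi => hf i (by omega)) (hf k (by omega))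
    simpa only [sum_range_succ] using h1

/-- `(y + δ) ^ i - y ^ i` has degree less than `i` -/
lemma Pl.pow_sub (hH : HF0 H) {δ : ℕ → ℝ} (hδ : δ ∈ H) (i : ℕ) :
    (fun N => (y N + δ N) ^ i - y N ^ i) ∈ Pl H y i := by
  induction i with
  | zero =>
    refine Pl.congr (Pl.zero hH 0) (Eventually.of_forall fun N => ?_)
    simp
  | succ i ih =>
    have h1 := Pl.ymul hH ih
    have h2 := Pl.mono hH (Nat.le_succ i) (Pl.smul hH hδ ih)
    have h3 := Pl.mono1 (y := y) hH hδ (Nat.lt_succ_self i)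
    refine Pl.congr (Pl.add hH (Pl.add hH h1 h2) h3) (Eventually.of_forall fun N => ?_)
    ring

/-- polynomials in `y` have a sign -/
theorem Pl.dich (hH : HF0 H) (hy : (fun N => y (N + 1) - y N) ∈ H) (m : ℕ) :
    ∀ g ∈ Pl H y m, Dich g := by
  induction m with
  | zero =>
    rintro g ⟨a, ha, h1⟩
    exact Or.inl (by simpa using h1)
  | succ m ih =>
    rintro g ⟨a, ha, h1⟩
    by_cases hz : ∀ᶠ N in atTop, a m N = 0
    · refine ih g ⟨a, ha, ?_⟩
      filter_upwards [h1, hz] with N h1 h2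
      rw [h1, sum_range_succ, h2]
      ring
    · have hnz : ∀ᶠ N in atTop, a m N ≠ 0 := by
        rcases hH.dich _ (ha m) with h | h | h
        · exact absurd h hz
        · filter_upwards [h] with N h; exact h.ne'
        · filter_upwards [h] with N h; exact h.ne
      obtain ⟨b, hb⟩ : ∃ b : ℕ → ℕ → ℝ, b = fun i N => (a m N)⁻¹ * a i N := ⟨_, rfl⟩
      have hbH : ∀ i, b i ∈ H := fun i => by
        rw [hb]; exact hH.mul _ (hH.inv _ (ha m)) _ (ha i)
      obtain ⟨h, hh⟩ : ∃ h : ℕ → ℝ, h = fun N => y N ^ m + ∑ i ∈ range m, b i N * y N ^ i := ⟨_, rfl⟩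
      have hgh : ∀ᶠ N in atTop, g N = a m N * h N := by
        filter_upwards [h1, hnz] with N h1 h2
        rw [h1, sum_range_succ, hh, hb]
        simp only []
        rw [mul_add, mul_sum, add_comm]
        congr 1
        apply sum_congr rfl
        intro i _
        field_simp
      refine Dich.congr (Dich.mul (hH.dich _ (ha m)) ?_) hgh
      apply Dich.of_diff
      refine ih _ ?_
      obtain ⟨δ, hδ⟩ : ∃ δ : ℕ → ℝ, δ = fun N => y (N + 1) - y N := ⟨_, rfl⟩
      have hδH : δ ∈ H := by rw [hδ]; exact hy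
      have hyδ : ∀ N, y (N + 1) = y N + δ N := fun N => by rw [hδ]; ring
      have h2 := Pl.pow_sub (y := y) hH hδH m
      have h3 : (fun N => ∑ i ∈ range m, (b i (N + 1) * ((y N + δ N) ^ i - y N ^ i) +
          (b i (N + 1) + -1 * b i N) * y N ^ i)) ∈ Pl H y m := by
        apply Pl.sum hH
        intro i hi
        refine Pl.add hH (Pl.smul hH (hH.shift _ (hbH i)) (Pl.mono hH hi.le (Pl.pow_sub hH hδH i))) ?_
        exact Pl.mono1 hH (hH.add _ (hH.shift _ (hbH i)) _ (hH.mul _ (hH.const (-1)) _ (hbH i))) hi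
      refine Pl.congr (Pl.add hH h2 h3) (Eventually.of_forall fun N => ?_)
      simp only [hh, hyδ]
      have e : ∑ i ∈ range m, (b i (N + 1) * ((y N + δ N) ^ i - y N ^ i) +
          (b i (N + 1) + -1 * b i N) * y N ^ i) =
          ∑ i ∈ range m, b i (N + 1) * (y N + δ N) ^ i - ∑ i ∈ range m, b i N * y N ^ i := by
        rw [← sum_sub_distrib]
        exact sum_congr rfl fun i _ => by ring
      rw [e]
      ring

/-- polynomials in `y` over `H` -/
def InP (H : Set (ℕ → ℝ)) (y : ℕ → ℝ) : Set (ℕ → ℝ) := {g | ∃ m, g ∈ Pl H y m}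

lemma InP.of_mem (hH : HF0 H) {f : ℕ → ℝ} (hf : f ∈ H) : f ∈ InP H y :=
  ⟨1, Pl.congr (Pl.mono1 hH hf (Nat.zero_lt_one)) (Eventually.of_forall fun N => by simp)⟩

lemma InP.self (hH : HF0 H) : y ∈ InP H y :=
  ⟨2, Pl.congr (Pl.mono1 hH (hH.const 1) (Nat.one_lt_two)) (Eventually.of_forall fun N => by simp)⟩

lemma InP.congr {f g : ℕ → ℝ} (hf : f ∈ InP H y) (h : ∀ᶠ N in atTop, g N = f N) : g ∈ InP H y := by
  obtain ⟨m, hm⟩ := hf
  exact ⟨m, Pl.congr hm h⟩

lemma InP.add (hH : HF0 H) {f g : ℕ → ℝ} (hf : f ∈ InP H y) (hg : g ∈ InP H y) :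
    (fun N => f N + g N) ∈ InP H y := by
  obtain ⟨m, hm⟩ := hf
  obtain ⟨k, hk⟩ := hg
  exact ⟨max m k, Pl.add hH (Pl.mono hH (le_max_left _ _) hm) (Pl.mono hH (le_max_right _ _) hk)⟩

lemma InP.smul (hH : HF0 H) {c f : ℕ → ℝ} (hc : c ∈ H) (hf : f ∈ InP H y) :
    (fun N => c N * f N) ∈ InP H y := by
  obtain ⟨m, hm⟩ := hf
  exact ⟨m, Pl.smul hH hc hm⟩

lemma InP.ymul (hH : HF0 H) {f : ℕ → ℝ} (hf : f ∈ InP H y) : (fun N => y N * f N) ∈ InP H y := by
  obtain ⟨m, hm⟩ := hf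
  exact ⟨m + 1, Pl.ymul hH hm⟩

lemma InP.powmul (hH : HF0 H) (i : ℕ) {f : ℕ → ℝ} (hf : f ∈ InP H y) :
    (fun N => y N ^ i * f N) ∈ InP H y := by
  induction i with
  | zero => exact InP.congr hf (Eventually.of_forall fun N => by simp)
  | succ i ih => exact InP.congr (InP.ymul hH ih) (Eventually.of_forall fun N => by ring)

lemma InP.sum (hH : HF0 H) {k : ℕ} {f : ℕ → ℕ → ℝ} (hf : ∀ i < k, f i ∈ InP H y) :
    (fun N => ∑ i ∈ range k, f i N) ∈ InP H y := by
  induction k with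
  | zero => exact InP.congr (InP.of_mem hH (hH.const 0)) (Eventually.of_forall fun N => by simp)
  | succ k ih =>
    have h1 := InP.add hH (ih fun i hi => hf i (by omega)) (hf k (by omega))
    simpa only [sum_range_succ] using h1

lemma InP.mul (hH : HF0 H) {f g : ℕ → ℝ} (hf : f ∈ InP H y) (hg : g ∈ InP H y) :
    (fun N => f N * g N) ∈ InP H y := by
  obtain ⟨m, a, ha, h1⟩ := hf
  have h2 : (fun N => ∑ i ∈ range m, a i N * (y N ^ i * g N)) ∈ InP H y :=
    InP.sum hH fun i _ => InP.smul hH (ha i) (InP.powmul hH i hg)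
  refine InP.congr h2 ?_
  filter_upwards [h1] with N h1
  rw [h1, sum_mul]
  exact sum_congr rfl fun i _ => by ring

lemma InP.pow (hH : HF0 H) {f : ℕ → ℝ} (hf : f ∈ InP H y) (i : ℕ) :
    (fun N => f N ^ i) ∈ InP H y := by
  induction i with
  | zero => exact InP.congr (InP.of_mem hH (hH.const 1)) (Eventually.of_forall fun N => by simp)
  | succ i ih => exact InP.congr (InP.mul hH ih hf) (Eventually.of_forall fun N => by ring)

lemma InP.shift (hH : HF0 H) (hy : (fun N => y (N + 1) - y N) ∈ H) {f : ℕ → ℝ}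
    (hf : f ∈ InP H y) : (fun N => f (N + 1)) ∈ InP H y := by
  obtain ⟨m, a, ha, h1⟩ := hf
  have h0 : (fun N => y (N + 1)) ∈ InP H y :=
    InP.congr (InP.add hH (InP.self hH) (InP.of_mem hH hy)) (Eventually.of_forall fun N => by ring)
  have h2 : (fun N => ∑ i ∈ range m, a i (N + 1) * y (N + 1) ^ i) ∈ InP H y :=
    InP.sum hH fun i _ => InP.smul hH (hH.shift _ (ha i)) (InP.pow hH h0 i)
  refine InP.congr h2 ?_
  exact (tendsto_add_atTop_nat 1).eventually h1

lemma InP.dich (hH : HF0 H) (hy : (fun N => y (N + 1) - y N) ∈ H) {f : ℕ → ℝ}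
    (hf : f ∈ InP H y) : Dich f := by
  obtain ⟨m, hm⟩ := hf
  exact Pl.dich hH hy m f hm

/-- the field of fractions -/
def Fr (H : Set (ℕ → ℝ)) (y : ℕ → ℝ) : Set (ℕ → ℝ) :=
  {g | ∃ p ∈ InP H y, ∃ q ∈ InP H y, (∀ᶠ N in atTop, q N ≠ 0) ∧ ∀ᶠ N in atTop, g N = p N / q N}

lemma Fr.of_inP (hH : HF0 H) {f : ℕ → ℝ} (hf : f ∈ InP H y) : f ∈ Fr H y :=
  ⟨f, hf, fun _ => 1, InP.of_mem hH (hH.const 1), Eventually.of_forall fun _ => one_ne_zero,
    Eventually.of_forall fun N => by simp⟩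

theorem Fr.hf (hH : HF0 H) (hy : (fun N => y (N + 1) - y N) ∈ H) : HF0 (Fr H y) where
  dich := by
    rintro g ⟨p, hp, q, hq, h1, h2⟩
    refine Dich.congr (Dich.mul (InP.dich hH hy hp) (InP.dich hH hy hq).inv) ?_
    filter_upwards [h2] with N h2
    rw [h2, div_eq_mul_inv]
  const := fun c => Fr.of_inP hH (InP.of_mem hH (hH.const c))
  add := by
    rintro f ⟨p, hp, q, hq, h1, h2⟩ g ⟨p', hp', q', hq', h1', h2'⟩
    refine ⟨_, InP.add hH (InP.mul hH hp hq') (InP.mul hH hp' hq), _, InP.mul hH hq hq', ?_, ?_⟩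
    · filter_upwards [h1, h1'] with N h1 h1'
      exact mul_ne_zero h1 h1'
    · filter_upwards [h1, h1', h2, h2'] with N h1 h1' h2 h2'
      rw [h2, h2']
      field_simp
  mul := by
    rintro f ⟨p, hp, q, hq, h1, h2⟩ g ⟨p', hp', q', hq', h1', h2'⟩
    refine ⟨_, InP.mul hH hp hp', _, InP.mul hH hq hq', ?_, ?_⟩
    · filter_upwards [h1, h1'] with N h1 h1'
      exact mul_ne_zero h1 h1'
    · filter_upwards [h1, h1', h2, h2'] with N h1 h1' h2 h2'
      rw [h2, h2']
      field_simp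
  inv := by
    rintro f ⟨p, hp, q, hq, h1, h2⟩
    have hd := InP.dich hH hy hp
    by_cases hz : ∀ᶠ N in atTop, p N = 0
    · refine ⟨_, InP.of_mem hH (hH.const 0), _, InP.of_mem hH (hH.const 1),
        Eventually.of_forall fun _ => one_ne_zero, ?_⟩
      filter_upwards [hz, h2] with N hz h2
      rw [h2, hz]
      simp
    · have hnz : ∀ᶠ N in atTop, p N ≠ 0 := by
        rcases hd with h | h | h
        · exact absurd h hz
        · filter_upwards [h] with N h; exact h.ne'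
        · filter_upwards [h] with N h; exact h.ne
      refine ⟨q, hq, p, hp, hnz, ?_⟩
      filter_upwards [h2] with N h2
      rw [h2, inv_div]
  shift := by
    rintro f ⟨p, hp, q, hq, h1, h2⟩
    exact ⟨_, InP.shift hH hy hp, _, InP.shift hH hy hq, (tendsto_add_atTop_nat 1).eventually h1,
      (tendsto_add_atTop_nat 1).eventually h2⟩
  germ := by
    rintro f ⟨p, hp, q, hq, h1, h2⟩ g hg
    refine ⟨p, hp, q, hq, h1, ?_⟩
    filter_upwards [h2, hg] with N h2 hg
    rw [hg, h2]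

end ext

/-- the eventually constant sequences -/
theorem hf0_const : HF0 {f : ℕ → ℝ | ∃ c : ℝ, ∀ᶠ N in atTop, f N = c} where
  dich := by
    rintro f ⟨c, hc⟩
    rcases lt_trichotomy c 0 with h | h | h
    · exact Or.inr (Or.inr (by filter_upwards [hc] with N h1; rw [h1]; exact h))
    · exact Or.inl (by filter_upwards [hc] with N h1; rw [h1]; exact h)
    · exact Or.inr (Or.inl (by filter_upwards [hc] with N h1; rw [h1]; exact h))
  const := fun c => ⟨c, Eventually.of_forall fun _ => rfl⟩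
  add := by
    rintro f ⟨c, hc⟩ g ⟨d, hd⟩
    exact ⟨c + d, by filter_upwards [hc, hd] with N h1 h2; rw [h1, h2]⟩
  mul := by
    rintro f ⟨c, hc⟩ g ⟨d, hd⟩
    exact ⟨c * d, by filter_upwards [hc, hd] with N h1 h2; rw [h1, h2]⟩
  inv := by
    rintro f ⟨c, hc⟩
    exact ⟨c⁻¹, by filter_upwards [hc] with N h1; rw [h1]⟩
  shift := by
    rintro f ⟨c, hc⟩
    exact ⟨c, (tendsto_add_atTop_nat 1).eventually hc⟩
  germ := by
    rintro f ⟨c, hc⟩ g hg
    exact ⟨c, by filter_upwards [hc, hg] with N h1 h2; rw [h2, h1]⟩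

theorem hf0_sUnion {c : Set (Set (ℕ → ℝ))} (hc : c ⊆ {H | HF0 H}) (hch : IsChain (· ⊆ ·) c)
    (hne : c.Nonempty) : HF0 (⋃₀ c) := by
  have two : ∀ f ∈ ⋃₀ c, ∀ g ∈ ⋃₀ c, ∃ s ∈ c, f ∈ s ∧ g ∈ s := by
    rintro f ⟨s, hs, hf⟩ g ⟨t, ht, hg⟩
    rcases hch.total hs ht with h | h
    · exact ⟨t, ht, h hf, hg⟩
    · exact ⟨s, hs, hf, h hg⟩
  obtain ⟨s₀, hs₀⟩ := hne
  exact {
    dich := by
      rintro f ⟨s, hs, hf⟩
      exact (hc hs).dich f hf
    const := fun a => ⟨s₀, hs₀, (hc hs₀).const a⟩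
    add := by
      intro f hf g hg
      obtain ⟨s, hs, h1, h2⟩ := two f hf g hg
      exact ⟨s, hs, (hc hs).add f h1 g h2⟩
    mul := by
      intro f hf g hg
      obtain ⟨s, hs, h1, h2⟩ := two f hf g hg
      exact ⟨s, hs, (hc hs).mul f h1 g h2⟩
    inv := by
      rintro f ⟨s, hs, hf⟩
      exact ⟨s, hs, (hc hs).inv f hf⟩
    shift := by
      rintro f ⟨s, hs, hf⟩
      exact ⟨s, hs, (hc hs).shift f hf⟩
    germ := by
      rintro f ⟨s, hs, hf⟩ g hg
      exact ⟨s, hs, (hc hs).germ f hf g hg⟩ }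

theorem t_MAX : S_MAX := by
  obtain ⟨H, -, hmax⟩ := zorn_subset_nonempty {H : Set (ℕ → ℝ) | HF0 H}
    (fun c hc hch hne => ⟨⋃₀ c, hf0_sUnion hc hch hne, fun s hs => Set.subset_sUnion_of_mem hs⟩)
    _ hf0_const
  have hH : HF0 H := hmax.prop
  have hsum : ∀ y : ℕ → ℝ, (fun N => y (N + 1) - y N) ∈ H → y ∈ H := by
    intro y hy
    have h1 : H ⊆ Fr H y := fun f hf => Fr.of_inP hH (InP.of_mem hH hf)
    have h2 := hmax.eq_of_subset (Fr.hf hH hy) h1
    rw [h2]
    exact Fr.of_inP hH (InP.self hH)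
  refine ⟨H, ⟨hH.dich, hH.const, ?_, hH.add, hH.mul, hH.inv, hH.shift⟩, hsum⟩
  apply hsum
  refine hH.germ _ (hH.const 1) _ (Eventually.of_forall fun N => ?_)
  push_cast
  ring

end Pool.Agent.V7H62.DH
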