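import Pool.Agent.V7H62.DH.Spec2
import Pool.Agent.V7H62.DH.Det
import Pool.Agent.V7H62.DH.MAX

/-!
# Membership in the Hardy field, zeros with polynomial coefficients
-/

set_option autoImplicit false

open Filter Finset

namespace Pool.Agent.V7H62.DH

variable {H : Set (ℕ → ℝ)}

theorem IsHF.pow (hH : IsHF H) {f : ℕ → ℝ} (hf : f ∈ H) (n : ℕ) : (fun N => f N ^ n) ∈ H := by
  induction n with
  | zero => simpa using hH.const 1
  | succ n ih => simpa only [pow_succ] using hH.mul _ ih _ hf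

theorem IsHF.den (hH : IsHF H) (n : ℕ) : (fun N : ℕ => (((N : ℝ) + 1) ^ n)⁻¹) ∈ H :=
  hH.inv _ (hH.pow (hH.add _ hH.nat _ (hH.const 1)) n)

theorem z_succ (n : ℕ) (w : List ℕ) (N : ℕ) :
    z (n :: w) (N + 1) = z (n :: w) N + z w N / ((N : ℝ) + 1) ^ n := by
  rw [z, z, sum_range_succ]

theorem z_mem (hH : IsHF H) (hs : ∀ y : ℕ → ℝ, (fun N => y (N + 1) - y N) ∈ H → y ∈ H) (w : List ℕ) :
    z w ∈ H := by
  induction w with
  | nil =>
    have h1 := hH.const 1
    have e : z [] = fun _ => 1 := by funext N; rw [z]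
    rwa [e]
  | cons n w ih =>
    apply hs
    have h1 := hH.mul _ ih _ (hH.den n)
    have e : (fun N => z (n :: w) (N + 1) - z (n :: w) N) =
        fun N => z w N * (((N : ℝ) + 1) ^ n)⁻¹ := by
      funext N
      rw [z_succ, div_eq_mul_inv]
      ring
    rwa [e]

theorem Adm.init {w : List ℕ} {n : ℕ} (h : Adm (w ++ [n])) : Adm w := by
  refine ⟨fun m hm => h.1 m (by simp [hm]), fun m v hv => h.2 m (v ++ [n]) (by rw [hv]; simp)⟩

theorem t_mem (hT : S_TAIL) (hH : IsHF H)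
    (hs : ∀ y : ℕ → ℝ, (fun N => y (N + 1) - y N) ∈ H → y ∈ H) (w : List ℕ) (hw : Adm w) :
    t w ∈ H := by
  induction w using List.reverseRecOn with
  | nil =>
    have h1 := hH.const 1
    have e : t [] = fun _ => 1 := by funext N; rw [t]
    rwa [e]
  | append_singleton w n ih =>
    apply hs
    have h1 := hH.mul _ (hH.const (-1)) _ (hH.mul _ (hH.shift _ (ih hw.init)) _ (hH.den n))
    have e : (fun N => t (w ++ [n]) (N + 1) - t (w ++ [n]) N) =
        fun N => -1 * (t w (N + 1) * (((N : ℝ) + 1) ^ n)⁻¹) := by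
      funext N
      rw [hT.2 w n hw N, div_eq_mul_inv]
      ring
    rwa [e]

/-- few zeros, with polynomial coefficients -/
theorem zeros_poly (hC : S_CHEB) (hH : IsHF H) (g : List ℕ → ℕ → ℝ) (S : Finset (List ℕ))
    (hg : ∀ w ∈ S, g w ∈ H)
    (hi : ∀ P : List ℕ → Polynomial ℝ, (∀ᶠ N : ℕ in atTop, ∑ w ∈ S, (P w).eval (N : ℝ) * g w N = 0) →
      ∀ w ∈ S, P w = 0) (m : ℕ) :
    ∃ N₀ : ℕ, ∀ P : List ℕ → Polynomial ℝ, (∀ w ∈ S, (P w).degree < m) → (∃ w ∈ S, P w ≠ 0) →
      {N : ℕ | N₀ ≤ N ∧ ∑ w ∈ S, (P w).eval (N : ℝ) * g w N = 0}.encard < ((m * S.card : ℕ) : ℕ∞) := by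
  classical
  have hcard : Fintype.card (S × Fin m) = m * S.card := by
    rw [Fintype.card_prod, Fintype.card_coe, Fintype.card_fin, mul_comm]
  obtain ⟨e⟩ : Nonempty ((S × Fin m) ≃ Fin (m * S.card)) := ⟨Fintype.equivFinOfCardEq hcard⟩
  obtain ⟨f, hf⟩ : ∃ f : Fin (m * S.card) → ℕ → ℝ,
      f = fun j (N : ℕ) => (N : ℝ) ^ ((e.symm j).2 : ℕ) * g (e.symm j).1 N := ⟨_, rfl⟩
  -- the sum over pairs
  have hsum : ∀ (P : List ℕ → Polynomial ℝ) (N : ℕ), (∀ w ∈ S, (P w).degree < m) →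
      ∑ w ∈ S, (P w).eval (N : ℝ) * g w N =
        ∑ j, (P (e.symm j).1).coeff ((e.symm j).2 : ℕ) * f j N := by
    intro P N hP
    rw [← Equiv.sum_comp e, Fintype.sum_prod_type, ← Finset.sum_coe_sort S]
    refine sum_congr rfl fun w _ => ?_
    by_cases h0 : P w = 0
    · rw [h0]
      simp only [Polynomial.eval_zero, zero_mul, Equiv.symm_apply_apply, h0, Polynomial.coeff_zero,
        sum_const_zero]
    · rw [Polynomial.eval_eq_sum_range' ((Polynomial.natDegree_lt_iff_degree_lt h0).2 (hP w w.2)),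
        sum_mul, sum_range]
      refine sum_congr rfl fun a _ => ?_
      rw [hf]
      simp only [Equiv.symm_apply_apply]
      ring
  have hfH : ∀ j, f j ∈ H := fun j => by
    rw [hf]
    exact hH.mul _ (hH.pow hH.nat _) _ (hg _ (e.symm j).1.2)
  have hfi : ∀ c : Fin (m * S.card) → ℝ, (∀ᶠ N in atTop, ∑ j, c j * f j N = 0) → c = 0 := by
    intro c hc
    obtain ⟨P, hP⟩ : ∃ P : List ℕ → Polynomial ℝ, P = fun w => if hw : w ∈ S then
      ∑ a : Fin m, Polynomial.monomial (a : ℕ) (c (e (⟨w, hw⟩, a))) else 0 := ⟨_, rfl⟩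
    have hPc : ∀ (w : List ℕ) (hw : w ∈ S) (a : Fin m), (P w).coeff (a : ℕ) = c (e (⟨w, hw⟩, a)) := by
      intro w hw a
      rw [hP]
      simp only [hw, dif_pos, Polynomial.finsetSum_coeff, Polynomial.coeff_monomial]
      rw [sum_eq_single a]
      · simp
      · intro b _ hb
        rw [if_neg fun h => hb (Fin.ext h)]
      · intro h
        exact absurd (mem_univ a) h
    have hPd : ∀ w ∈ S, (P w).degree < m := by
      intro w hw
      rw [hP]
      simp only [hw, dif_pos]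
      rw [← Polynomial.mem_degreeLT]
      refine Submodule.sum_mem _ fun a _ => Polynomial.mem_degreeLT.2 ?_
      exact (Polynomial.degree_monomial_le _ _).trans_lt (by exact_mod_cast a.2)
    have h0 := hi P (by
      filter_upwards [hc] with N h1
      rw [hsum P N hPd, ← h1]
      refine sum_congr rfl fun j _ => ?_
      congr 1
      rw [hPc _ (e.symm j).1.2]
      simp)
    funext j
    have h1 := hPc _ (e.symm j).1.2 (e.symm j).2
    rw [h0 _ (e.symm j).1.2, Polynomial.coeff_zero] at h1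
    simpa using h1.symm
  obtain ⟨N₀, hN⟩ := cheb_fin hC hH hfH hfi
  refine ⟨N₀, fun P hP hne => ?_⟩
  by_contra hcon
  rw [not_lt] at hcon
  obtain ⟨A, hA, hA'⟩ := Set.exists_subset_encard_eq hcon
  have hfin : A.Finite := Set.finite_of_encard_eq_coe hA'
  have hcA : hfin.toFinset.card = m * S.card := by
    rw [hfin.encard_eq_coe_toFinset_card] at hA'
    exact_mod_cast hA'
  obtain ⟨w, hw, hPw⟩ := hne
  refine few_zeros hN (fun j => (P (e.symm j).1).coeff ((e.symm j).2 : ℕ)) ?_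
    (hfin.toFinset.orderEmbOfFin hcA) (OrderEmbedding.strictMono _) ?_ ?_
  · intro h0
    apply hPw
    ext a
    by_cases ha : a < m
    · have h1 := congrFun h0 (e (⟨w, hw⟩, ⟨a, ha⟩))
      simpa using h1
    · rw [Polynomial.coeff_zero]
      apply Polynomial.coeff_eq_zero_of_degree_lt
      exact (hP w hw).trans_le (by exact_mod_cast not_lt.1 ha)
  · intro i
    exact (hA (hfin.mem_toFinset.1 (Finset.orderEmbOfFin_mem _ hcA i))).1
  · intro i
    rw [← hsum P _ hP]
    exact (hA (hfin.mem_toFinset.1 (Finset.orderEmbOfFin_mem _ hcA i))).2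

end Pool.Agent.V7H62.DH
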