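import Pool.Agent.V7H62.DH.Asm

/-!
# Zeros without the hypothesis of independence; monotone convergence
-/

set_option autoImplicit false

open Filter Finset

namespace Pool.Agent.V7H62.DH

variable {H : Set (ℕ → ℝ)}

/-- reduction to an independent family -/
theorem reduce (hH : IsHF H) (s : ℕ) (f : Fin s → ℕ → ℝ) (hf : ∀ j, f j ∈ H) :
    ∃ (r : ℕ) (_ : r ≤ s) (g : Fin r → ℕ → ℝ), (∀ j, g j ∈ H) ∧
      (∀ c : Fin r → ℝ, (∀ᶠ N in atTop, ∑ j, c j * g j N = 0) → c = 0) ∧
      ∃ N₁ : ℕ, ∀ c : Fin s → ℝ, ∃ c' : Fin r → ℝ, ∀ N, N₁ ≤ N →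
        ∑ j, c j * f j N = ∑ j, c' j * g j N := by
  induction s with
  | zero =>
    refine ⟨0, le_rfl, f, hf, fun c _ => ?_, 0, fun c => ⟨c, fun N _ => rfl⟩⟩
    funext j
    exact j.elim0
  | succ s ih =>
    obtain ⟨r, hr, g, hg, hi, N₁, h1⟩ := ih (fun j => f j.castSucc) (fun j => hf _)
    by_cases hd : ∃ a : Fin r → ℝ, ∀ᶠ N in atTop, f (Fin.last s) N = ∑ j, a j * g j N
    · obtain ⟨a, ha⟩ := hd
      obtain ⟨N₂, ha⟩ := eventually_atTop.1 ha
      refine ⟨r, hr.trans (Nat.le_succ s), g, hg, hi, max N₁ N₂, fun c => ?_⟩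
      obtain ⟨c', hc'⟩ := h1 fun j => c j.castSucc
      refine ⟨fun j => c' j + c (Fin.last s) * a j, fun N hN => ?_⟩
      rw [Fin.sum_univ_castSucc, hc' N ((le_max_left _ _).trans hN),
        ha N ((le_max_right _ _).trans hN), mul_sum, ← sum_add_distrib]
      exact sum_congr rfl fun j _ => by ring
    · refine ⟨r + 1, Nat.succ_le_succ hr, Fin.snoc g (f (Fin.last s)), fun j => ?_, fun c hc => ?_,
        N₁, fun c => ?_⟩
      · refine Fin.lastCases ?_ (fun j => ?_) j
        · rw [Fin.snoc_last]; exact hf _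
        · rw [Fin.snoc_castSucc]; exact hg j
      · have hc2 : ∀ᶠ N in atTop, ∑ j : Fin r, c j.castSucc * g j N +
            c (Fin.last r) * f (Fin.last s) N = 0 := by
          filter_upwards [hc] with N hc
          rw [Fin.sum_univ_castSucc] at hc
          simpa only [Fin.snoc_castSucc, Fin.snoc_last] using hc
        have hlast : c (Fin.last r) = 0 := by
          by_contra hne
          apply hd
          refine ⟨fun j => -(c (Fin.last r))⁻¹ * c j.castSucc, ?_⟩
          filter_upwards [hc2] with N hc2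
          have e : ∑ j : Fin r, -(c (Fin.last r))⁻¹ * c j.castSucc * g j N =
              -(c (Fin.last r))⁻¹ * ∑ j : Fin r, c j.castSucc * g j N := by
            rw [mul_sum]
            exact sum_congr rfl fun j _ => by ring
          rw [e]
          have e2 : ∑ j : Fin r, c j.castSucc * g j N = -(c (Fin.last r) * f (Fin.last s) N) := by
            linarith
          rw [e2]
          field_simp
        have hc3 := hi (fun j => c j.castSucc) (by
          filter_upwards [hc2] with N hc2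
          rw [hlast] at hc2
          linarith)
        funext j
        refine Fin.lastCases ?_ (fun j => ?_) j
        · exact hlast
        · exact congrFun hc3 j
      · obtain ⟨c', hc'⟩ := h1 fun j => c j.castSucc
        refine ⟨Fin.snoc c' (c (Fin.last s)), fun N hN => ?_⟩
        rw [Fin.sum_univ_castSucc, Fin.sum_univ_castSucc, hc' N hN]
        simp only [Fin.snoc_castSucc, Fin.snoc_last]

/-- zeros without independence -/
theorem zeros_gen (hC : S_CHEB) (hH : IsHF H) (s : ℕ) (f : Fin s → ℕ → ℝ) (hf : ∀ j, f j ∈ H) :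
    ∃ N₀ : ℕ, ∀ c : Fin s → ℝ, (∀ N, N₀ ≤ N → ∑ j, c j * f j N = 0) ∨
      {N : ℕ | N₀ ≤ N ∧ ∑ j, c j * f j N = 0}.encard < (s : ℕ∞) := by
  obtain ⟨r, hr, g, hg, hi, N₁, h1⟩ := reduce hH s f hf
  obtain ⟨N₂, h2⟩ := cheb_fin hC hH hg hi
  refine ⟨max N₁ N₂, fun c => ?_⟩
  obtain ⟨c', hc'⟩ := h1 c
  by_cases h0 : c' = 0
  · left
    intro N hN
    rw [hc' N ((le_max_left _ _).trans hN), h0]
    simp
  · right
    refine lt_of_lt_of_le ?_ (show ((r : ℕ) : ℕ∞) ≤ s by exact_mod_cast hr)
    by_contra hcon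
    rw [not_lt] at hcon
    obtain ⟨A, hA, hA'⟩ := Set.exists_subset_encard_eq hcon
    have hfin : A.Finite := Set.finite_of_encard_eq_coe hA'
    have hcA : hfin.toFinset.card = r := by
      rw [hfin.encard_eq_coe_toFinset_card] at hA'
      exact_mod_cast hA'
    refine few_zeros h2 c' h0 (hfin.toFinset.orderEmbOfFin hcA) (OrderEmbedding.strictMono _) ?_ ?_
    · intro i
      exact (le_max_right _ _).trans
        (hA (hfin.mem_toFinset.1 (Finset.orderEmbOfFin_mem _ hcA i))).1
    · intro i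
      have h3 := hA (hfin.mem_toFinset.1 (Finset.orderEmbOfFin_mem _ hcA i))
      rw [← hc' _ ((le_max_left _ _).trans h3.1)]
      exact h3.2

/-- monotone convergence -/
theorem mono_conv (hH : IsHF H) {y : ℕ → ℝ} (hy : y ∈ H) {L : ℝ} (hL : Tendsto y atTop (nhds L))
    (hne : ¬ ∀ᶠ N in atTop, y N = L) :
    ∃ σ : ℝ, (σ = 1 ∨ σ = -1) ∧ ∀ᶠ N in atTop, 0 < σ * (L - y N) ∧ 0 < σ * (y (N + 1) - y N) := by
  have key : ∀ x : ℕ → ℝ, ∀ K : ℝ, Tendsto x atTop (nhds K) → (∀ᶠ N in atTop, 0 < x (N + 1) - x N) →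
      ∀ᶠ N in atTop, 0 < K - x N := by
    intro x K hx hd
    obtain ⟨N₁, h1⟩ := eventually_atTop.1 hd
    have hmono : ∀ M, N₁ ≤ M → ∀ N, M ≤ N → x M ≤ x N := by
      intro M hM N hMN
      induction N, hMN using Nat.le_induction with
      | base => exact le_rfl
      | succ k hk ih =>
        have := h1 k (hM.trans hk)
        linarith
    refine eventually_atTop.2 ⟨N₁, fun N hN => ?_⟩
    have h2 : x (N + 1) ≤ K := ge_of_tendsto hx
      (eventually_atTop.2 ⟨N + 1, fun M hM => hmono (N + 1) (by omega) M hM⟩)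
    have := h1 N hN
    linarith
  have hdH : (fun N => y (N + 1) + -1 * y N) ∈ H :=
    hH.add _ (hH.shift _ hy) _ (hH.mul _ (hH.const (-1)) _ hy)
  rcases hH.dich _ hdH with h | h | h
  · exfalso
    apply hne
    obtain ⟨N₁, h1⟩ := eventually_atTop.1 h
    have hc : ∀ N, N₁ ≤ N → y N = y N₁ := by
      intro N hN
      induction N, hN using Nat.le_induction with
      | base => rfl
      | succ k hk ih =>
        have := h1 k hk
        linarith
    have h2 : Tendsto y atTop (nhds (y N₁)) :=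
      tendsto_const_nhds.congr' (eventually_atTop.2 ⟨N₁, fun N hN => (hc N hN).symm⟩)
    have h3 := tendsto_nhds_unique hL h2
    exact eventually_atTop.2 ⟨N₁, fun N hN => by rw [hc N hN, h3]⟩
  · refine ⟨1, Or.inl rfl, ?_⟩
    have h2 : ∀ᶠ N in atTop, 0 < y (N + 1) - y N := by
      filter_upwards [h] with N h
      linarith
    filter_upwards [key y L hL h2, h2] with N h3 h4
    constructor <;> linarith
  · refine ⟨-1, Or.inr rfl, ?_⟩
    have h2 : ∀ᶠ N in atTop, 0 < (-y (N + 1)) - (-y N) := by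
      filter_upwards [h] with N h
      linarith
    filter_upwards [key (fun N => -y N) (-L) hL.neg h2, h2] with N h3 h4
    constructor <;> linarith

end Pool.Agent.V7H62.DH
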