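import Pool.Agent.V7H62.DH.Spec2

/-!
# Algebraic independence of the truncated zeta values: the statement
-/

set_option autoImplicit false

open Filter Finset

namespace Pool.Agent.V7H62.DH

/-- `N` and the truncated zeta values `z [1] N, z [2] N, ...` -/
noncomputable def pv (N : ℕ) : Option ℕ → ℝ
  | none => N
  | some j => z [j + 1] N

/-- (ALG) `N` and the truncated zeta values `∑_{k ≤ N} 1 / k ^ n`, `n ≥ 1`, are algebraically independent. -/
def S_ALG : Prop := S_IND → ∀ P : MvPolynomial (Option ℕ) ℝ,
  (∀ᶠ N : ℕ in atTop, MvPolynomial.eval (pv N) P = 0) → P = 0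

end Pool.Agent.V7H62.DH
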