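import Pool.Agent.V7H62.DH.Ext
import Pool.Agent.V7H62.DH.Spec3

/-!
# Zeros of polynomials in algebraically independent sequences; from truncated zeta values to tails
-/

set_option autoImplicit false

open Filter Finset

namespace Pool.Agent.V7H62.DH

variable {H : Set (ℕ → ℝ)}

/-- `N` and the tails `t [2] N, t [3] N, ...` -/
noncomputable def pt (N : ℕ) : Option ℕ → ℝ
  | none => N
  | some j => t [j + 2] N

theorem eval_mem (hH : IsHF H) {v : ℕ → Option ℕ → ℝ} (hv : ∀ i, (fun N => v N i) ∈ H)
    (P : MvPolynomial (Option ℕ) ℝ) : (fun N => MvPolynomial.eval (v N) P) ∈ H := by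
  induction P using MvPolynomial.induction_on with
  | C a => simpa using hH.const a
  | add p q hp hq => simpa using hH.add _ hp _ hq
  | mul_X p i hp => simpa using hH.mul _ hp _ (hv i)

/-- few zeros of polynomials in algebraically independent sequences -/
theorem zeros_alg (hC : S_CHEB) (hH : IsHF H) {v : ℕ → Option ℕ → ℝ} (hv : ∀ i, (fun N => v N i) ∈ H)
    (hA : ∀ P : MvPolynomial (Option ℕ) ℝ, (∀ᶠ N in atTop, MvPolynomial.eval (v N) P = 0) → P = 0)
    (M : Finset (Option ℕ →₀ ℕ)) :
    ∃ N₀ : ℕ, ∀ P : MvPolynomial (Option ℕ) ℝ, P ≠ 0 → P.support ⊆ M →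
      {N : ℕ | N₀ ≤ N ∧ MvPolynomial.eval (v N) P = 0}.encard < (M.card : ℕ∞) := by
  obtain ⟨N₀, hN⟩ := zeros_gen hC hH M.card
    (fun j N => MvPolynomial.eval (v N) (MvPolynomial.monomial (M.equivFin.symm j).1 1))
    (fun j => eval_mem hH hv _)
  refine ⟨N₀, fun P hP hs => ?_⟩
  have hsum : ∀ N, MvPolynomial.eval (v N) P = ∑ j, P.coeff (M.equivFin.symm j).1 *
      MvPolynomial.eval (v N) (MvPolynomial.monomial (M.equivFin.symm j).1 1) := by
    intro N
    have e1 : P = ∑ m ∈ M, MvPolynomial.monomial m (P.coeff m) := by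
      conv_lhs => rw [P.as_sum]
      refine sum_subset hs fun m _ hm => ?_
      rw [MvPolynomial.notMem_support_iff.1 hm, map_zero]
    conv_lhs => rw [e1]
    rw [map_sum, ← Finset.sum_coe_sort M, ← Equiv.sum_comp M.equivFin.symm]
    refine sum_congr rfl fun j _ => ?_
    rw [MvPolynomial.eval_monomial, MvPolynomial.eval_monomial, one_mul]
  rcases hN fun j => P.coeff (M.equivFin.symm j).1 with h | h
  · exfalso
    apply hP
    apply hA
    filter_upwards [eventually_ge_atTop N₀] with N hN'
    rw [hsum]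
    exact h N hN'
  · simpa only [hsum] using h

/-- the tails `t [2], t [3], ...` are algebraically independent -/
theorem alg_tails (hT : S_TAIL) (hA : ∀ P : MvPolynomial (Option ℕ) ℝ,
      (∀ᶠ N : ℕ in atTop, MvPolynomial.eval (pv N) P = 0) → P = 0) (P : MvPolynomial (Option ℕ) ℝ)
    (hP : ∀ᶠ N : ℕ in atTop, MvPolynomial.eval (pt N) P = 0) : P = 0 := by
  have ht : ∀ n : ℕ, 2 ≤ n → ∀ N : ℕ, t [n] N = t [n] 0 - z [n] N := by
    intro n hn N
    have hadm : Adm ([] ++ [n]) := by
      refine ⟨fun m hm => ?_, fun m v hv => ?_⟩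
      · simp at hm; omega
      · simp at hv; omega
    induction N with
    | zero => rw [z]; simp
    | succ N ih =>
      have h1 := hT.2 [] n hadm N
      simp only [List.nil_append] at h1
      have h2 : t [] (N + 1) = 1 := by rw [t]
      have h3 : z [n] (N + 1) = z [n] N + 1 / ((N : ℝ) + 1) ^ n := by
        rw [z_succ, show z [] N = 1 by rw [z]]
      rw [h2] at h1
      rw [h3]
      linarith
  obtain ⟨φ, hφ⟩ : ∃ φ : MvPolynomial (Option ℕ) ℝ →ₐ[ℝ] MvPolynomial (Option ℕ) ℝ,
      φ = MvPolynomial.aeval fun i => match i with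
        | none => MvPolynomial.X none
        | some j => MvPolynomial.C (t [j + 2] 0) - MvPolynomial.X (some (j + 1)) := ⟨_, rfl⟩
  obtain ⟨ψ, hψ⟩ : ∃ ψ : MvPolynomial (Option ℕ) ℝ →ₐ[ℝ] MvPolynomial (Option ℕ) ℝ,
      ψ = MvPolynomial.aeval fun i => match i with
        | none => MvPolynomial.X none
        | some 0 => 0
        | some (j + 1) => MvPolynomial.C (t [j + 2] 0) - MvPolynomial.X (some j) := ⟨_, rfl⟩
  have hcomp : ψ.comp φ = AlgHom.id ℝ _ := by
    apply MvPolynomial.algHom_ext
    intro i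
    rcases i with _ | j
    · simp [hφ, hψ]
    · simp [hφ, hψ, MvPolynomial.algHom_C]
  have h1 : φ P = 0 := by
    apply hA
    filter_upwards [hP] with N hN
    rw [← hN]
    have e : (MvPolynomial.eval (pv N)).comp φ.toRingHom = MvPolynomial.eval (pt N) := by
      apply MvPolynomial.ringHom_ext
      · intro r
        simp [MvPolynomial.algHom_C]
      · intro i
        rcases i with _ | j
        · simp [hφ, pv, pt]
        · simp only [hφ, RingHom.coe_comp, Function.comp_apply, AlgHom.toRingHom_eq_coe,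
            RingHom.coe_coe, MvPolynomial.aeval_X, map_sub, MvPolynomial.eval_C, MvPolynomial.eval_X, pv, pt]
          rw [ht (j + 2) (by omega) N]
    exact congrArg (fun g : MvPolynomial (Option ℕ) ℝ →+* ℝ => g P) e
  have h2 : (ψ.comp φ) P = P := by rw [hcomp]; rfl
  rw [← h2, AlgHom.comp_apply, h1, map_zero]

end Pool.Agent.V7H62.DH
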